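import Pool.Agent.W203.SP.Stm

set_option autoImplicit false

open MeasureTheory Set Complex Filter
open scoped ENNReal NNReal
open Pool.Agent.W203.SP

namespace Pool.Agent.W924.SP

lemma ee_cont : Continuous ee := by
  unfold ee
  fun_prop

lemma ee_norm (x : ℝ) : ‖ee x‖ = 1 := by
  rw [ee, Complex.norm_exp_ofReal_mul_I]

lemma enorm_add_pow4 (a b : ℂ) : ‖a + b‖ₑ ^ 4 ≤ 8 * (‖a‖ₑ ^ 4 + ‖b‖ₑ ^ 4) := by
  have h1 : ‖a + b‖ ^ 4 ≤ 8 * (‖a‖ ^ 4 + ‖b‖ ^ 4) := by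
    have h2 : ‖a + b‖ ^ 4 ≤ (‖a‖ + ‖b‖) ^ 4 := by
      gcongr
      exact norm_add_le a b
    have h3 : (‖a‖ + ‖b‖) ^ 4 ≤ 8 * (‖a‖ ^ 4 + ‖b‖ ^ 4) := by
      nlinarith [sq_nonneg (‖a‖ - ‖b‖), sq_nonneg (‖a‖ ^ 2 - ‖b‖ ^ 2), sq_nonneg (‖a‖ + ‖b‖),
        mul_nonneg (sq_nonneg (‖a‖ - ‖b‖)) (sq_nonneg (‖a‖ + ‖b‖)),
        sq_nonneg (‖a‖ ^ 2 + ‖b‖ ^ 2), mul_nonneg (sq_nonneg (‖a‖ - ‖b‖)) (sq_nonneg ‖a‖),
        mul_nonneg (sq_nonneg (‖a‖ - ‖b‖)) (sq_nonneg ‖b‖),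
        mul_nonneg (sq_nonneg (‖a‖ - ‖b‖)) (sq_nonneg (‖a‖ - ‖b‖))]
    exact h2.trans h3
  have e : ∀ z : ℂ, ‖z‖ₑ ^ 4 = ENNReal.ofReal (‖z‖ ^ 4) := fun z => by
    rw [ENNReal.ofReal_pow (norm_nonneg z), ofReal_norm]
  rw [e, e, e, ← ENNReal.ofReal_add (by positivity) (by positivity),
    show (8 : ℝ≥0∞) = ENNReal.ofReal 8 by simp, ← ENNReal.ofReal_mul (by norm_num)]
  exact ENNReal.ofReal_le_ofReal h1

/-- the superposition -/
noncomputable def AA (g : ℝ → ℂ) (l w : ℝ) : ℂ := ∫ r, g r * ee (l / r + r * w)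

lemma AA_meas {g : ℝ → ℂ} (hg : Measurable g) : Measurable fun q : ℝ × ℝ => AA g q.1 q.2 := by
  have h : StronglyMeasurable (Function.uncurry fun (q : ℝ × ℝ) (r : ℝ) =>
      g r * ee (q.1 / r + r * q.2)) := by
    apply Measurable.stronglyMeasurable
    apply Measurable.mul
    · exact hg.comp measurable_snd
    · exact ee_cont.measurable.comp (by fun_prop)
  exact h.integral_prod_right.measurable

lemma int_mul {g : ℝ → ℂ} (hg : Integrable g) (l w : ℝ) :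
    Integrable fun r => g r * ee (l / r + r * w) := by
  refine hg.mono (hg.aestronglyMeasurable.mul ?_) (Eventually.of_forall fun r => ?_)
  · exact (ee_cont.measurable.comp (by fun_prop)).aestronglyMeasurable
  · rw [norm_mul, ee_norm, mul_one]

lemma AA_neg (g : ℝ → ℂ) (l w : ℝ) : AA g l w = AA (fun r => g (-r)) (-l) (-w) := by
  rw [AA, AA, ← integral_neg_eq_self]
  refine integral_congr_ae (Eventually.of_forall fun r => ?_)
  change g (-r) * ee (l / -r + -r * w) = g (-r) * ee (-l / r + r * -w)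
  congr 2
  rw [div_neg, neg_div]
  ring

lemma lint_neg_Icc (Λ : ℝ) (F : ℝ → ℝ≥0∞) :
    ∫⁻ l in Icc (-Λ) Λ, F (-l) = ∫⁻ l in Icc (-Λ) Λ, F l := by
  rw [← lintegral_indicator measurableSet_Icc, ← lintegral_indicator measurableSet_Icc,
    ← lintegral_neg_eq_self (μ := volume) ((Icc (-Λ) Λ).indicator F)]
  refine lintegral_congr fun l => ?_
  by_cases h : l ∈ Icc (-Λ) Λ
  · rw [indicator_of_mem h, indicator_of_mem (show -l ∈ Icc (-Λ) Λ from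
      ⟨by linarith [h.2], by linarith [h.1]⟩)]
  · rw [indicator_of_notMem h, indicator_of_notMem]
    intro h'
    exact h ⟨by linarith [h'.2], by linarith [h'.1]⟩

lemma key4 (S : Set ℝ) {A B : ℝ → ℝ → ℂ} (hA : Measurable fun q : ℝ × ℝ => A q.1 q.2)
    (hB : Measurable fun q : ℝ × ℝ => B q.1 q.2) :
    ∫⁻ l in S, ∫⁻ w, ‖A l w + B l w‖ₑ ^ 4 ≤
      8 * ((∫⁻ l in S, ∫⁻ w, ‖A l w‖ₑ ^ 4) + ∫⁻ l in S, ∫⁻ w, ‖B l w‖ₑ ^ 4) := by
  have N1 : Measurable fun q : ℝ × ℝ => ‖A q.1 q.2‖ₑ ^ 4 := hA.enorm.pow_const 4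
  have N2 : Measurable fun q : ℝ × ℝ => ‖B q.1 q.2‖ₑ ^ 4 := hB.enorm.pow_const 4
  have M4 : Measurable fun l : ℝ => ∫⁻ w, ‖A l w‖ₑ ^ 4 := N1.lintegral_prod_right'
  have M5 : Measurable fun l : ℝ => ∫⁻ w, ‖B l w‖ₑ ^ 4 := N2.lintegral_prod_right'
  have h1 : ∀ l : ℝ, ∫⁻ w, ‖A l w + B l w‖ₑ ^ 4 ≤
      8 * ((∫⁻ w, ‖A l w‖ₑ ^ 4) + ∫⁻ w, ‖B l w‖ₑ ^ 4) := by
    intro l
    have M2 : Measurable fun w : ℝ => ‖A l w‖ₑ ^ 4 :=
      N1.comp (f := fun w : ℝ => (l, w)) (measurable_const.prodMk measurable_id)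
    have M3 : Measurable fun w : ℝ => ‖B l w‖ₑ ^ 4 :=
      N2.comp (f := fun w : ℝ => (l, w)) (measurable_const.prodMk measurable_id)
    calc ∫⁻ w, ‖A l w + B l w‖ₑ ^ 4 ≤ ∫⁻ w, 8 * (‖A l w‖ₑ ^ 4 + ‖B l w‖ₑ ^ 4) :=
          lintegral_mono fun w => enorm_add_pow4 _ _
      _ = 8 * ∫⁻ w, (‖A l w‖ₑ ^ 4 + ‖B l w‖ₑ ^ 4) := lintegral_const_mul _ (M2.add M3)
      _ = _ := by rw [lintegral_add_left M2]
  calc ∫⁻ l in S, ∫⁻ w, ‖A l w + B l w‖ₑ ^ 4 ≤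
        ∫⁻ l in S, 8 * ((∫⁻ w, ‖A l w‖ₑ ^ 4) + ∫⁻ w, ‖B l w‖ₑ ^ 4) := lintegral_mono h1
    _ = 8 * ∫⁻ l in S, ((∫⁻ w, ‖A l w‖ₑ ^ 4) + ∫⁻ w, ‖B l w‖ₑ ^ 4) :=
        lintegral_const_mul _ (M4.add M5)
    _ = _ := by rw [lintegral_add_left M4]

theorem t_HYP (h1 : S_HYP1) : S_HYP := by
  intro e he he1
  obtain ⟨C, hC, hh⟩ := h1 e he he1
  refine ⟨16 * C, by positivity, fun T hT B g hg hB hs => ?_⟩
  have hB0 : 0 ≤ B := (norm_nonneg _).trans (hB 0)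
  have hT0 : 0 < T := by linarith
  have hlow : 0 < T ^ (1 - e) := Real.rpow_pos_of_pos hT0 _
  have hg0 : ∀ r, ¬ (T ^ (1 - e) ≤ |r| ∧ |r| ≤ T ^ (1 + e)) → g r = 0 := fun r hr => hs r hr
  -- the two parts
  obtain ⟨gp, egp⟩ : ∃ gp : ℝ → ℂ, gp = (Ioi (0 : ℝ)).indicator g := ⟨_, rfl⟩
  obtain ⟨gm, egm⟩ : ∃ gm : ℝ → ℂ, gm = (Iio (0 : ℝ)).indicator g := ⟨_, rfl⟩
  have hgp : Measurable gp := by rw [egp]; exact hg.indicator measurableSet_Ioi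
  have hgm : Measurable gm := by rw [egm]; exact hg.indicator measurableSet_Iio
  have hsum : ∀ r, g r = gp r + gm r := by
    intro r
    rcases lt_trichotomy r 0 with h | h | h
    · rw [egp, egm]
      rw [indicator_of_notMem (show r ∉ Ioi (0 : ℝ) from not_lt.2 h.le),
        indicator_of_mem (show r ∈ Iio (0 : ℝ) from h), zero_add]
    · rw [egp, egm]
      rw [h, indicator_of_notMem (show (0 : ℝ) ∉ Ioi (0 : ℝ) by simp),
        indicator_of_notMem (show (0 : ℝ) ∉ Iio (0 : ℝ) by simp), zero_add]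
      apply hg0
      rw [abs_zero]
      exact fun hc => absurd hc.1 (not_le.2 hlow)
    · rw [egp, egm]
      rw [indicator_of_mem (show r ∈ Ioi (0 : ℝ) from h),
        indicator_of_notMem (show r ∉ Iio (0 : ℝ) from not_lt.2 h.le), add_zero]
  have bgp : ∀ r, ‖gp r‖ ≤ B := by
    intro r
    rw [egp]
    refine (norm_indicator_le_norm_self g r).trans (hB r)
  have bgm : ∀ r, ‖gm r‖ ≤ B := by
    intro r
    rw [egm]
    refine (norm_indicator_le_norm_self g r).trans (hB r)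
  -- integrability
  have hint : ∀ f : ℝ → ℂ, Measurable f → (∀ r, ‖f r‖ ≤ B) →
      (∀ r, r ∉ Icc (-(T ^ (1 + e))) (T ^ (1 + e)) → f r = 0) → Integrable f := by
    intro f hf hfB hfs
    have h3 : f = (Icc (-(T ^ (1 + e))) (T ^ (1 + e))).indicator f := by
      funext r
      by_cases h : r ∈ Icc (-(T ^ (1 + e))) (T ^ (1 + e))
      · rw [indicator_of_mem h]
      · rw [indicator_of_notMem h, hfs r h]
    rw [h3, integrable_indicator_iff measurableSet_Icc]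
    exact Measure.integrableOn_of_bounded (M := B) (by simp) hf.aestronglyMeasurable
      (Eventually.of_forall hfB)
  have hgs : ∀ r, r ∉ Icc (-(T ^ (1 + e))) (T ^ (1 + e)) → g r = 0 := by
    intro r hr
    apply hg0
    rintro ⟨-, h⟩
    exact hr (abs_le.1 h)
  have igp : Integrable gp := hint gp hgp bgp fun r hr => by
    rw [egp]
    rw [indicator_apply]
    split_ifs
    · exact hgs r hr
    · rfl
  have igm : Integrable gm := hint gm hgm bgm fun r hr => by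
    rw [egm]
    rw [indicator_apply]
    split_ifs
    · exact hgs r hr
    · rfl
  have hAA : ∀ l w, (∫ r, g r * ee (l / r + r * w)) = AA gp l w + AA gm l w := by
    intro l w
    rw [AA, AA, ← integral_add (int_mul igp l w) (int_mul igm l w)]
    refine integral_congr_ae (Eventually.of_forall fun r => ?_)
    change g r * _ = gp r * _ + gm r * _
    rw [← add_mul, ← hsum]
  -- the positive part
  have P1 := hh T hT B gp hgp bgp (by
    intro r hr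
    rw [egp]
    rw [indicator_apply]
    split_ifs with h
    · apply hg0
      rw [abs_of_pos h]
      exact hr
    · rfl)
  -- the negative part
  have hgm' : Measurable fun r => gm (-r) := hgm.comp measurable_neg
  have P2 := hh T hT B (fun r => gm (-r)) hgm' (fun r => bgm (-r)) (by
    intro r hr
    rw [egm]
    rw [indicator_apply]
    split_ifs with h
    · apply hg0
      have h' : 0 < r := by
        have : -r < 0 := h
        linarith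
      rw [abs_neg, abs_of_pos h']
      exact hr
    · rfl)
  have Q1 : ∫⁻ r, ‖gp r‖ₑ ^ 4 ≤ ∫⁻ r, ‖g r‖ₑ ^ 4 := by
    refine lintegral_mono fun r => ?_
    rw [egp]
    rw [indicator_apply]
    split_ifs
    · exact le_rfl
    · simp
  have Q2 : ∫⁻ r, ‖gm (-r)‖ₑ ^ 4 ≤ ∫⁻ r, ‖g r‖ₑ ^ 4 := by
    rw [lintegral_neg_eq_self (μ := volume) (fun r => ‖gm r‖ₑ ^ 4)]
    refine lintegral_mono fun r => ?_
    rw [egm]
    rw [indicator_apply]
    split_ifs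
    · exact le_rfl
    · simp
  -- the change of variables
  have R2 : ∫⁻ l in Icc (-(4 * T ^ 2)) (4 * T ^ 2), ∫⁻ w, ‖AA gm l w‖ₑ ^ 4 =
      ∫⁻ l in Icc (-(4 * T ^ 2)) (4 * T ^ 2), ∫⁻ w, ‖AA (fun r => gm (-r)) l w‖ₑ ^ 4 := by
    rw [← lint_neg_Icc (4 * T ^ 2) (fun l => ∫⁻ w, ‖AA (fun r => gm (-r)) l w‖ₑ ^ 4)]
    refine lintegral_congr fun l => ?_
    rw [← lintegral_neg_eq_self (μ := volume) (fun w => ‖AA (fun r => gm (-r)) (-l) w‖ₑ ^ 4)]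
    refine lintegral_congr fun w => ?_
    rw [AA_neg]
  have key : ∫⁻ l in Icc (-(4 * T ^ 2)) (4 * T ^ 2), ∫⁻ w, ‖∫ r, g r * ee (l / r + r * w)‖ₑ ^ 4 ≤
      8 * ((∫⁻ l in Icc (-(4 * T ^ 2)) (4 * T ^ 2), ∫⁻ w, ‖AA gp l w‖ₑ ^ 4) +
        ∫⁻ l in Icc (-(4 * T ^ 2)) (4 * T ^ 2), ∫⁻ w, ‖AA gm l w‖ₑ ^ 4) := by
    refine le_trans (le_of_eq ?_) (key4 _ (AA_meas hgp) (AA_meas hgm))
    simp only [hAA]
  refine key.trans ?_
  rw [R2]
  have P1' : ∫⁻ l in Icc (-(4 * T ^ 2)) (4 * T ^ 2), ∫⁻ w, ‖AA gp l w‖ₑ ^ 4 ≤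
      ENNReal.ofReal (C * T ^ (3 + 6 * e)) * ∫⁻ r, ‖g r‖ₑ ^ 4 :=
    P1.trans (mul_le_mul_right Q1 _)
  have P2' : ∫⁻ l in Icc (-(4 * T ^ 2)) (4 * T ^ 2), ∫⁻ w, ‖AA (fun r => gm (-r)) l w‖ₑ ^ 4 ≤
      ENNReal.ofReal (C * T ^ (3 + 6 * e)) * ∫⁻ r, ‖g r‖ₑ ^ 4 :=
    P2.trans (mul_le_mul_right Q2 _)
  refine (mul_le_mul_right (add_le_add P1' P2') 8).trans (le_of_eq ?_)
  rw [← two_mul, ← mul_assoc, ← mul_assoc]
  congr 1
  have h16 : (8 : ℝ≥0∞) * 2 = ENNReal.ofReal 16 := by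
    rw [show (8 : ℝ≥0∞) * 2 = 16 by norm_num]
    simp
  rw [h16, ← ENNReal.ofReal_mul (by norm_num)]
  congr 1
  ring

end Pool.Agent.W924.SP
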